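import Pool.Agent.MWT.Stmts

/-! # Row CVL of squad MWT: distances, left -/

set_option autoImplicit false

namespace Pool.Agent.MWT.H30

open Pool.Agent.Helper14_MV Pool.Agent.Helper2_MV Pool.Agent.MVD Pool.Agent.MWT

theorem nl_append (u v : List ℕ) : nl (u ++ v) = nl u + nl v := by
  unfold nl
  rw [List.filter_append, List.length_append]

theorem nl_fm (φ : ℕ → List ℕ) : ∀ l : List ℕ, (∀ s ∈ l, s % 3 = 1 → nl (φ s) = 1) →
    nl l ≤ nl (l.flatMap φ) := by
  intro l
  induction l with
  | nil => intro _; exact le_refl _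
  | cons a l ih =>
    intro h
    have h1 := ih (fun s hs => h s (List.mem_cons_of_mem _ hs))
    rw [List.flatMap_cons, nl_append]
    by_cases ha : a % 3 = 1
    · have h2 := h a List.mem_cons_self ha
      have h3 : nl (a :: l) = nl l + 1 := by
        unfold nl
        simp [ha]
      omega
    · have h3 : nl (a :: l) = nl l := by
        unfold nl
        simp [ha]
      omega

theorem nl_mem {w : List ℕ} (h : nl w = 0) {a : ℕ} (ha : a % 3 = 1) : a ∉ w := by
  intro hm
  unfold nl at h
  rw [List.length_eq_zero_iff, List.filter_eq_nil_iff] at h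
  exact h a hm (by simp [ha])

theorem cvl (hc : CvcStmt) (_ : CvdStmt) (ht : CtbStmt) (hn : NlcStmt) (_ : NlfStmt) :
    CvlStmt := by
  intro m R E B t φ α L2 L3 X1 X2 Y ω h e f g hm T C hf hfe hg hfg
  obtain ⟨ξ1, ξ2, -, -, -, -, -, -, -, k1, k2, k3⟩ := hc m R E B t φ α _ _ Y ω h e T C
  obtain ⟨ζ1, ζ2, hz⟩ := List.append_of_mem hfg
  have hB : B 0 = (α ++ (L2.flatMap φ ++ ζ1)) ++ f ::
      ((ζ2 ++ (L3.flatMap φ ++ (φ h ++ (X1.flatMap φ ++ ζ1)))) ++ f ::
        (ζ2 ++ (X2.flatMap φ ++ (φ h ++ (Y.flatMap φ ++ ω))))) := by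
    rw [C.b0]
    simp only [List.flatMap_append, List.flatMap_cons, hz, List.append_assoc, List.cons_append,
      List.nil_append]
  have hgm : g ∈ (L2 ++ g :: L3) ++ h :: ((X1 ++ g :: X2) ++ h :: Y) := by simp
  have hg0 : nl (φ g) = 0 := C.c0 g hgm hg
  have hmem0 : ∀ a ∈ B 0, a ∈ Bw R B ++ t := by
    intro a ha
    exact List.mem_append_left _ (List.mem_flatMap.2 ⟨0, T.z, List.mem_append_left _ ha⟩)
  have hX1 : ∀ a ∈ X1.flatMap φ, a ∈ B 0 := by
    intro a ha
    rw [hB]
    simp only [List.mem_append, List.mem_cons]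
    tauto
  have hcnt : ∀ b < 7 * m, (B 0).count (3 * b + 1) = 1 := by
    intro b hb
    rw [T.li b hb 0 T.z]
    simp
  have hle : ∀ b < 7 * m, (X1.flatMap φ).count (3 * b + 1) ≤ 1 := by
    intro b hb
    have h1 := hcnt b hb
    rw [hB] at h1
    simp only [List.count_append, List.count_cons] at h1
    omega
  have hnl := hn m (X1.flatMap φ) (fun a ha h1 => T.cn a (hmem0 a (hX1 a ha)) h1) hle
  obtain ⟨-, t2, -⟩ := ht m e f (T.th e C.ee) (T.th f hf)
  have hsub : ((List.range (7 * m)).filter
      (fun b => decide (own e (b % 7) ∧ own f (b % 7)))).length ≤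
      ((List.range (7 * m)).filter (fun b => decide (3 * b + 1 ∈ X1.flatMap φ))).length := by
    rw [← List.countP_eq_length_filter, ← List.countP_eq_length_filter]
    refine List.countP_mono_left ?_
    intro b hb hb2
    rw [List.mem_range] at hb
    rw [decide_eq_true_eq] at hb2 ⊢
    obtain ⟨he, hf2⟩ := hb2
    have h1 := (k3 b hb).2 he
    have h2 := T.ow f hf _ _ _ hB b hb hf2
    rw [List.flatMap_append, List.flatMap_cons, List.mem_append, List.mem_append] at h1
    rcases h1 with h1 | h1 | h1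
    · exact h1
    · exact absurd h1 (nl_mem hg0 (by omega))
    · exfalso
      have h3 := hcnt b hb
      rw [hB] at h3
      have h4 := List.count_pos_iff.2 h1
      have h5 := List.count_pos_iff.2 h2
      simp only [List.count_append, List.count_cons] at h3 h5
      omega
  have hx2 : nl X2 ≤ nl (X2.flatMap φ) := nl_fm φ X2 (fun s hs h1 => k1 s (by simp [hs]) h1)
  rw [List.flatMap_append, List.flatMap_cons, nl_append, nl_append] at k2
  rw [t2, ← hnl] at hsub
  omega

end Pool.Agent.MWT.H30

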